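import Pool.Agent.Q22.CD.Low3

/-!
# Conjugacy depth of `𝔽_p ≀ ℤ^k`, `k ≥ 2`: a lower bound larger than `2^n`

Let `m = p^v`, `D = √v`, `K = |GL_D(𝔽_p)| ≤ p^(D^2) ≤ m` and
`g = (y^K - 1)(1 + x + ... + x^(m-1)) = (y^K - 1)(x - 1)^(m-1)`.  The elements `(0, m e₁)` and
`(g, m e₁)` have length `O(m)`.  A finite quotient in which they are not conjugate gives a finite
module `V` over `𝔽_p[x, y]/(x^m - 1)` with `g V ≠ 0`; then `y^K ≠ 1` on `(x - 1)^(m-1) V`, so this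
space has dimension at least `D + 1`, and `dim V ≥ m (D + 1)`.
-/

namespace Pool.Agent.Results.MP_9ae5d9_al.LowerBoundFp

open Q22CD

/-- For every prime `p`, `k ≥ 2` and finite generating set `S` of `𝔽_p ≀ ℤ^k`:
`2^(n √(log n)) ≼ Conj`, and this function is not dominated by `2^n`. -/
theorem result (p : ℕ) [Fact p.Prime] (k : ℕ) (hk : 2 ≤ k)
    (S : Set (Wreath (ZMod p) (Fin k → ℤ))) (_ : S.Finite) (hS : Subgroup.closure S = ⊤) :
    Dominated (fun n => (2 : ℝ) ^ ((n : ℝ) * Real.sqrt (Real.log n))) (conjDepth S) ∧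
    ¬ Dominated (fun n => (2 : ℝ) ^ ((n : ℝ) * Real.sqrt (Real.log n)))
        (fun n => ((2 ^ n : ℕ) : ℕ∞)) :=
  ⟨lower hk S hS, not_dom_exp⟩

end Pool.Agent.Results.MP_9ae5d9_al.LowerBoundFp
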