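import Pool.Agent.Q22.CD.Asym

/-!
# Conjugacy depth of `𝔽_p ≀ ℤ^k`: upper bound and a negative answer to Q1

Two elements `(f, a)`, `(g, a)` are conjugate iff `g ∈ X^c f + (1 - X^a) R[A]` for some `c`.  One
maps `A = ℤ^k` to `ℤ/m × ℤ` with kernel `⟨a⟩` on a large box (base expansion), and then
`R[ℤ/m × ℤ]` to `F_q[ℤ/m] × F_q[ℤ/m]` by evaluating the second variable at `(β, β^s)`, `s = P + 1`,
`q = P^2`.  If all `β` fail to separate, a pigeonhole argument gives identities
`F(X^s) G(X)^s = F(X)^s G(X^s)` between the component polynomials, which force `F = X^j G`.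
Here `q` is polynomial in `n` and `m ≤ n`, so the quotient has order at most `n^(C n)`.
-/

namespace Pool.Agent.Results.MP_9ae5d9_al.UpperBoundFp

open Q22CD

/-- For every prime `p`, every `k` and every finite generating set `S` of `𝔽_p ≀ ℤ^k` there is `C`
with `Conj(n) ≤ (C(n+1))^(C(n+1))` for all `n`; and for `k ≥ 2` the function `2^(n^k)` is not
dominated by `Conj`. -/
theorem result (p : ℕ) [Fact p.Prime] (k : ℕ) (S : Set (Wreath (ZMod p) (Fin k → ℤ)))
    (hS : S.Finite) (_ : Subgroup.closure S = ⊤) :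
    (∃ C : ℕ, ∀ n : ℕ, conjDepth S n ≤ (((C * (n + 1)) ^ (C * (n + 1)) : ℕ) : ℕ∞)) ∧
    (2 ≤ k → ¬ Dominated (fun n => (2 : ℝ) ^ (n ^ k)) (conjDepth S)) := by
  obtain ⟨C, _, h⟩ := upper_Fp' p k S hS
  exact ⟨⟨C, h⟩, fun hk => neg1 p k hk S hS⟩

end Pool.Agent.Results.MP_9ae5d9_al.UpperBoundFp
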