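import Pool.Agent.Q22.CD.Asym

/-!
# Conjugacy depth of `ℤ ≀ ℤ^k`: upper bound and a negative answer to Q2

Elements of length `n` have total lamp weight `O(n)`, so they can be reduced modulo a prime
`p = O(n)` without losing non-conjugacy; then the construction for `𝔽_p ≀ ℤ^k`, which is uniform in
`p`, applies.
-/

namespace Pool.Agent.Results.MP_9ae5d9_al.UpperBoundZ

open Q22CD

/-- For every `k` and every finite generating set `S` of `ℤ ≀ ℤ^k` there is `C` with
`Conj(n) ≤ (C(n+1))^(C(n+1))` for all `n`; and for `k ≥ 2` the function `(log n)^(n^k)` is not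
dominated by `Conj`. -/
theorem result (k : ℕ) (S : Set (Wreath ℤ (Fin k → ℤ)))
    (hS : S.Finite) (_ : Subgroup.closure S = ⊤) :
    (∃ C : ℕ, ∀ n : ℕ, conjDepth S n ≤ (((C * (n + 1)) ^ (C * (n + 1)) : ℕ) : ℕ∞)) ∧
    (2 ≤ k → ¬ Dominated (fun n => Real.log n ^ (n ^ k)) (conjDepth S)) := by
  obtain ⟨C, _, h⟩ := upper_Z' k S hS
  exact ⟨⟨C, h⟩, fun hk => neg2 k hk S hS⟩

end Pool.Agent.Results.MP_9ae5d9_al.UpperBoundZ
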